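import Pool.Agent.W622.ETC.Stm

/-! Project ELT: BETA (helper366). -/

set_option autoImplicit false

namespace Pool.Agent.W366.ELT

open Pool.Agent.W622.ETC Module

section
variable {V : Type} [AddCommGroup V] [Module (ZMod 2) V] [Finite V]

/-- sum of the dimensions -/
noncomputable def sg (S : Set (DSub V)) : ℕ := ∑ᶠ X ∈ S, finrank (ZMod 2) X

lemma sg_def (S : Set (DSub V)) :
    sg S = ∑ X ∈ (Set.toFinite S).toFinset, finrank (ZMod 2) X :=
  finsum_mem_eq_finite_toFinset_sum _ _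

lemma sg_diff {S : Set (DSub V)} {X : DSub V} (h : X ∈ S) :
    sg S = finrank (ZMod 2) X + sg (S \ {X}) := by
  have h1 : insert X (S \ {X}) = S := by
    rw [Set.insert_sdiff_singleton, Set.insert_eq_of_mem h]
  conv_lhs => rw [← h1]
  exact finsum_mem_insert _ (by simp) (Set.toFinite _)

lemma sg_ge {S : Set (DSub V)} {e : ℕ} (h : ∀ X ∈ S, e ≤ finrank (ZMod 2) X) :
    e * S.ncard ≤ sg S := by
  rw [sg_def, Set.ncard_eq_toFinset_card S, mul_comm, ← smul_eq_mul]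
  exact Finset.card_nsmul_le_sum _ _ _ (fun X hX => h X (by simpa using hX))

lemma sg_eq {S : Set (DSub V)} {e : ℕ} (h : ∀ X ∈ S, finrank (ZMod 2) X = e) :
    sg S = e * S.ncard := by
  rw [sg_def, Set.ncard_eq_toFinset_card S, mul_comm, ← smul_eq_mul, ← Finset.sum_const]
  exact Finset.sum_congr rfl (fun X hX => h X (by simpa using hX))

lemma sg_dim (hIDIM : S_IDIM) {S : Set (DSub V)} (h : sSupIndep S) :
    finrank (ZMod 2) (sSup S : DSub V) = sg S := by
  have h1 := hIDIM V (Set.toFinite S).toFinset (by simpa using h)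
  rw [sg_def, ← h1, Set.Finite.coe_toFinset]

lemma min_dep (T : Set (DSub V)) (h : ¬ sSupIndep T) :
    ∃ D ⊆ T, ¬ sSupIndep D ∧ ∀ D' : Set (DSub V), D' ⊆ D → D' ≠ D → sSupIndep D' := by
  have hf : ({D | D ⊆ T ∧ ¬ sSupIndep D} : Set (Set (DSub V))).Finite := Set.toFinite _
  obtain ⟨D, hD⟩ := hf.exists_minimal ⟨T, subset_rfl, h⟩
  refine ⟨D, hD.prop.1, hD.prop.2, fun D' h1 h2 => ?_⟩
  by_contra h3
  have := hD.le_of_le ⟨h1.trans hD.prop.1, h3⟩ h1
  exact h2 (subset_antisymm h1 this)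

omit [Finite V] in
lemma diff_ne {D : Set (DSub V)} {X : DSub V} (hX : X ∈ D) : D \ {X} ≠ D := by
  intro h
  rw [← h] at hX
  exact hX.2 rfl

lemma md (hIDIM : S_IDIM) (hMD : S_MD) {A : Fam V} (hA : CB A) {D : Set (DSub V)} {X : DSub V}
    (h1 : ∀ Z ∈ D, Block A Z) (h2 : ¬ sSupIndep D)
    (h3 : ∀ D' : Set (DSub V), D' ⊆ D → D' ≠ D → sSupIndep D') (hX : X ∈ D) (hg : Good A X) :
    sSup (D \ {X}) = ⊤ ∧ sSupIndep (D \ {X}) ∧
      sg D = finrank (ZMod 2) V + finrank (ZMod 2) X := by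
  have h4 := hMD V A D X hA h1 h2 h3 hX hg
  have h5 : sSupIndep (D \ {X}) := h3 _ Set.sdiff_subset (diff_ne hX)
  refine ⟨h4, h5, ?_⟩
  rw [sg_diff hX, ← sg_dim hIDIM h5, h4, finrank_top, finrank_Dl, add_comm]

lemma sp_sum (S : Finset (DSub V)) (ω : DSub V → Frm V) (hind : sSupIndep (S : Set (DSub V)))
    (halt : ∀ X ∈ S, Alt (ω X)) (hsp : ∀ X ∈ S, sp (ω X) = X) :
    sp (∑ X ∈ S, ω X) = sSup (S : Set (DSub V)) ∧ Alt (∑ X ∈ S, ω X) := by
  classical
  induction S using Finset.induction_on with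
  | empty => simp [Alt.zero]
  | insert X S hX ih =>
    have h1 : sSupIndep (S : Set (DSub V)) := hind.mono (by simp)
    obtain ⟨h2, h3⟩ := ih h1 (fun Y hY => halt Y (Finset.mem_insert_of_mem hY))
      (fun Y hY => hsp Y (Finset.mem_insert_of_mem hY))
    have h4 := halt X (Finset.mem_insert_self X S)
    have h5 := hsp X (Finset.mem_insert_self X S)
    have h6 : Disjoint (sp (ω X)) (sp (∑ Y ∈ S, ω Y)) := by
      rw [h5, h2]
      have h7 := hind (Finset.mem_coe.2 (Finset.mem_insert_self X S))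
      have h8 : ((insert X S : Finset (DSub V)) : Set (DSub V)) \ {X} = (S : Set (DSub V)) := by
        ext Y
        simp only [Finset.coe_insert, Set.mem_sdiff, Set.mem_insert_iff, Finset.mem_coe,
          Set.mem_singleton_iff]
        constructor
        · rintro ⟨h9 | h9, h10⟩
          · exact absurd h9 h10
          · exact h9
        · intro h9
          refine ⟨Or.inr h9, ?_⟩
          rintro rfl
          exact hX h9
      rw [h8] at h7
      exact h7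
    rw [Finset.sum_insert hX]
    refine ⟨?_, h4.add h3⟩
    rw [sp_add h4 h3 h6, h5, h2, Finset.coe_insert, sSup_insert]

omit [Finite V] in
lemma loc {A : Fam V} (hA : CB A) {X : DSub V} (h : Block A X) : LocBlock A X := by
  rcases h with h | h
  · exact absurd h.1 (hA.nc X)
  · exact h

/-- the sum of the forms of the blocks in `S` -/
noncomputable def sm (A : Fam V) (S : Set (DSub V)) : Frm V := ∑ᶠ X ∈ S, om A X

lemma sm_def (A : Fam V) (S : Set (DSub V)) :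
    sm A S = ∑ X ∈ (Set.toFinite S).toFinset, om A X :=
  finsum_mem_eq_finite_toFinset_sum _ _

lemma sm_diff (A : Fam V) {S : Set (DSub V)} {X : DSub V} (h : X ∈ S) :
    sm A S = om A X + sm A (S \ {X}) := by
  have h1 : insert X (S \ {X}) = S := by
    rw [Set.insert_sdiff_singleton, Set.insert_eq_of_mem h]
  conv_lhs => rw [← h1]
  exact finsum_mem_insert _ (by simp) (Set.toFinite _)

lemma sm_facts (hOM : S_OM) {A : Fam V} (hA : CB A) {S : Set (DSub V)}
    (hS : ∀ X ∈ S, Block A X) (hind : sSupIndep S) : sm A S ∈ A ∧ sp (sm A S) = sSup S := by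
  have h1 : ∀ X ∈ (Set.toFinite S).toFinset, Block A X := fun X hX => hS X (by simpa using hX)
  have h2 := sp_sum (Set.toFinite S).toFinset (om A) (by simpa using hind)
    (fun X hX => hA.mc.alt _ (hOM V A X hA.mc.alt (loc hA (h1 X hX))).1)
    (fun X hX => (hOM V A X hA.mc.alt (loc hA (h1 X hX))).2.2.1)
  rw [sm_def]
  refine ⟨Submodule.sum_mem _ fun X hX => (hOM V A X hA.mc.alt (loc hA (h1 X hX))).1, ?_⟩
  rw [h2.1, Set.Finite.coe_toFinset]

end

lemma num {n f e t μ ν : ℕ} (h1 : n + e = f + e * t) (h2 : n ≤ f + μ) (h3 : e * μ + 2 ≤ n)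
    (h4 : n ≤ e + e + ν) (h5 : e * ν + 2 ≤ n) (he : 2 ≤ e) (ht : 2 ≤ t) : e = 2 ∧ n = 6 := by
  obtain ⟨t', rfl⟩ : ∃ t', t = t' + 2 := ⟨t - 2, by omega⟩
  obtain ⟨e', rfl⟩ : ∃ e', e = e' + 2 := ⟨e - 2, by omega⟩
  have h6 : (e' + 2) * (t' + 1) ≤ μ := by nlinarith
  have h7 : (e' + 2) * ((e' + 2) * (t' + 1)) ≤ (e' + 2) * μ := Nat.mul_le_mul_left _ h6
  have h8 : (e' + 2) * n ≤ (e' + 2) * (e' + 2 + (e' + 2) + ν) := Nat.mul_le_mul_left _ h4
  have h9 : (e' + 1) * n ≤ (e' + 1) * (2 * (e' + 3)) := by nlinarith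
  have h10 : n ≤ 2 * (e' + 3) := Nat.le_of_mul_le_mul_left h9 (by omega)
  have h11 : (e' + 2) * ((e' + 2) * (t' + 1)) ≤ (e' + 2) * 2 := by nlinarith
  have h12 : (e' + 2) * (t' + 1) ≤ 2 := Nat.le_of_mul_le_mul_left h11 (by omega)
  have h13 : e' = 0 := by nlinarith
  subst h13
  omega

theorem t_BETA (hIDIM : S_IDIM) (_hGLUE : S_GLUE) (hBNT : S_BNT) (hBDIS : S_BDIS) (hOM : S_OM)
    (hCB1 : S_CB1) (hMD : S_MD) (hNGC : S_NGC) (hHH : S_HH) (hSIX : S_SIX) : S_BETA := by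
  intro V _ _ _ A F c N hA hF hc hn hNG hNc hdep
  have halt := hA.mc.alt
  have hOM' := fun X (hX : Block A X) => hOM V A X halt (loc hA hX)
  have hBL : ∀ b : V, b ≠ 0 → ∀ e, (∀ X ∈ BL A b, e ≤ finrank (ZMod 2) X) →
      e * (BL A b).ncard + 2 ≤ finrank (ZMod 2) V := by
    intro b hb e he
    obtain ⟨h1, _, h2⟩ := hCB1 V A b hA hb
    rw [sg_dim hIDIM h1.1] at h2
    have := sg_ge he
    omega
  have hBLind : ∀ b : V, b ≠ 0 → sSupIndep (BL A b) := fun b hb => (hCB1 V A b hA hb).1.1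
  have h2c : ∀ b : V, b ≠ 0 → 2 * (BL A b).ncard + 2 ≤ finrank (ZMod 2) V := fun b hb =>
    hBL b hb 2 fun X hX => (hOM' X hX.1).2.2.2.2.2
  have hbad : ∀ F' ∈ BB A, finrank (ZMod 2) V + 2 ≤ 2 * finrank (ZMod 2) F' := by
    intro F' hF'
    obtain ⟨c', hc', h1⟩ := hNGC V A F' hA hF'
    have := h2c c' hc'
    omega
  obtain ⟨D, hDsub, hDdep, hDmin⟩ := min_dep (insert F N) hdep
  have hFD : F ∈ D := by
    by_contra hFD
    apply hDdep
    refine (hBLind c hc).mono (fun X hX => ?_)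
    rcases hDsub hX with h | h
    · exact absurd (h ▸ hX) hFD
    · exact hNc h
  have hN'G : ∀ X ∈ D \ {F}, X ∈ GB A := by
    rintro X ⟨hX, hXF⟩
    rcases hDsub hX with h | h
    · exact absurd h hXF
    · exact hNG h
  have hDblk : ∀ Z ∈ D, Block A Z := by
    intro Z hZ
    rcases hDsub hZ with h | h
    · rw [h]; exact hF.1
    · exact (hNG h).1
  have hmd : ∀ X ∈ D \ {F}, sSup (D \ {X}) = ⊤ ∧ sSupIndep (D \ {X}) ∧
      sg D = finrank (ZMod 2) V + finrank (ZMod 2) X := fun X hX =>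
    md hIDIM hMD hA hDblk hDdep hDmin hX.1 (hN'G X hX).2
  have hN'ne : (D \ {F}).Nonempty := by
    by_contra hne
    rw [Set.not_nonempty_iff_eq_empty] at hne
    apply hDdep
    intro Z hZ
    have h1 : D \ {Z} = ∅ := by
      have h2 : Z = F := by
        by_contra h3
        have : Z ∈ D \ {F} := ⟨hZ, h3⟩
        rw [hne] at this
        exact this
      rw [h2, hne]
    rw [h1, sSup_empty]
    exact disjoint_bot_right
  obtain ⟨X₀, hX₀⟩ := hN'ne
  obtain ⟨e, he⟩ : ∃ e, e = finrank (ZMod 2) X₀ := ⟨_, rfl⟩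
  have hee : ∀ X ∈ D \ {F}, finrank (ZMod 2) X = e := by
    intro X hX
    have h1 := (hmd X hX).2.2
    have h2 := (hmd X₀ hX₀).2.2
    omega
  have hsum : finrank (ZMod 2) V + e = finrank (ZMod 2) F + e * (D \ {F}).ncard := by
    rw [← sg_eq hee, ← sg_diff hFD, (hmd X₀ hX₀).2.2, he]
  have he2 : 2 ≤ e := by
    rw [he]
    exact (hOM' X₀ (hDblk X₀ hX₀.1)).2.2.2.2.2
  have hn1 : (D \ {F}).ncard ≠ 1 := by
    intro h1
    rw [h1, mul_one] at hsum
    have h2 : finrank (ZMod 2) F = finrank (ZMod 2) (Dl V) := by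
      rw [finrank_Dl]
      omega
    exact (hBNT V A F hA.mc hF.1).1 (Submodule.eq_top_of_finrank_eq h2)
  have hn0 : (D \ {F}).ncard ≠ 0 := by
    intro h1
    rw [Set.ncard_eq_zero (Set.toFinite _)] at h1
    rw [h1] at hX₀
    exact hX₀
  have ht2 : 2 ≤ (D \ {F}).ncard := by omega
  obtain ⟨X₁, X₂, hX₁, hX₂, hX12⟩ := (Set.one_lt_ncard_iff (Set.toFinite _)).1
    (show 1 < (D \ {F}).ncard by omega)
  -- all good blocks have the same dimension
  have hgood : ∀ X ∈ GB A, finrank (ZMod 2) X = e := by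
    intro X hX
    by_cases hXN : X ∈ D \ {F}
    · exact hee X hXN
    · have hXF : X ≠ F := by
        rintro rfl
        exact hF.2 hX.2
      have hXD : X ∉ D := fun h => hXN ⟨h, hXF⟩
      obtain ⟨hsp1, hind1, _⟩ := hmd X₁ hX₁
      have hXne := (hBNT V A X hA.mc hX.1).2
      have hdep' : ¬ sSupIndep (insert X (D \ {X₁})) := by
        intro hind
        have h1 := hind (Set.mem_insert X _)
        have h2 : insert X (D \ {X₁}) \ {X} = D \ {X₁} := by
          ext Y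
          simp only [Set.mem_sdiff, Set.mem_insert_iff, Set.mem_singleton_iff]
          constructor
          · rintro ⟨h3 | h3, h4⟩
            · exact absurd h3 h4
            · exact h3
          · intro h3
            refine ⟨Or.inr h3, ?_⟩
            rintro rfl
            exact hXD h3.1
        rw [h2, hsp1, disjoint_top] at h1
        exact hXne h1
      obtain ⟨D', hD'sub, hD'dep, hD'min⟩ := min_dep _ hdep'
      have hD'blk : ∀ Z ∈ D', Block A Z := by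
        intro Z hZ
        rcases hD'sub hZ with h | h
        · rw [h]; exact hX.1
        · exact hDblk Z h.1
      have hXD' : X ∈ D' := by
        by_contra hc'
        apply hD'dep
        refine hind1.mono fun Z hZ => ?_
        rcases hD'sub hZ with h | h
        · exact absurd (h ▸ hZ) hc'
        · exact h
      obtain ⟨hsp2, _, hsg2⟩ := md hIDIM hMD hA hD'blk hD'dep hD'min hXD' hX.2
      have hX₂D' : X₂ ∈ D' := by
        by_contra hc'
        have h1 : Disjoint X₂ (sSup ((D \ {X₁}) \ {X₂})) :=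
          hind1 ⟨hX₂.1, fun h => hX12 h.symm⟩
        have h2 : D' \ {X} ⊆ (D \ {X₁}) \ {X₂} := by
          rintro Z ⟨hZ, hZX⟩
          rcases hD'sub hZ with h | h
          · exact absurd h hZX
          · refine ⟨h, ?_⟩
            rintro rfl
            exact hc' hZ
        have h3 : sSup ((D \ {X₁}) \ {X₂}) = ⊤ := by
          rw [eq_top_iff, ← hsp2]
          exact sSup_le_sSup h2
        rw [h3, disjoint_top] at h1
        exact (hBNT V A X₂ hA.mc (hDblk X₂ hX₂.1)).2 h1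
      have hsg3 := (md hIDIM hMD hA hD'blk hD'dep hD'min hX₂D' (hN'G X₂ hX₂).2).2.2
      have := hee X₂ hX₂
      omega
  have hall : ∀ X, Block A X → e ≤ finrank (ZMod 2) X := by
    intro X hX
    by_cases hg : Good A X
    · exact (hgood X ⟨hX, hg⟩).ge
    · have h1 := hbad X ⟨hX, hg⟩
      have h2 := h2c c hc
      have h3 : e * 2 ≤ e * (D \ {F}).ncard := Nat.mul_le_mul_left _ ht2
      omega
  have hdis : Disjoint X₁ X₂ := hBDIS V A X₁ X₂ hA.mc (hN'G X₁ hX₁) (hDblk X₂ hX₂.1) hX12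
  obtain ⟨x₁, hx₁, hx₁0⟩ := Submodule.exists_mem_ne_zero_of_ne_bot
    (hBNT V A X₁ hA.mc (hDblk X₁ hX₁.1)).2
  obtain ⟨x₂, hx₂, hx₂0⟩ := Submodule.exists_mem_ne_zero_of_ne_bot
    (hBNT V A X₂ hA.mc (hDblk X₂ hX₂.1)).2
  have hζ := sm_facts hOM hA (S := D \ {X₂}) (fun X hX => hDblk X hX.1) (hmd X₂ hX₂).2.1
  rw [(hmd X₂ hX₂).1] at hζ
  obtain ⟨hζA, hζs⟩ := hζ
  obtain ⟨a, ha⟩ : ∃ a, sm A (D \ {X₂}) a = x₁ + x₂ := by
    have : x₁ + x₂ ∈ sp (sm A (D \ {X₂})) := by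
      rw [hζs]
      exact Submodule.mem_top
    exact mem_sp.1 this
  have hne : om A X₁ a ≠ x₁ := by
    intro hc1
    have hX₁' : X₁ ∈ D \ {X₂} := ⟨hX₁.1, hX12⟩
    have h1 : sm A ((D \ {X₂}) \ {X₁}) a = x₂ := by
      rw [sm_diff A hX₁', LinearMap.add_apply, hc1] at ha
      exact add_left_cancel ha
    have hη := sm_facts hOM hA (S := (D \ {X₂}) \ {X₁}) (fun X hX => hDblk X hX.1.1)
      ((hmd X₂ hX₂).2.1.mono Set.sdiff_subset)
    have h0 : (D \ {X₂}) \ {X₁} = (D \ {X₁}) \ {X₂} := by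
      ext Z
      simp only [Set.mem_sdiff, Set.mem_singleton_iff]
      tauto
    have h2 : x₂ ∈ sSup ((D \ {X₁}) \ {X₂}) := by
      rw [← h0, ← hη.2]
      exact ⟨a, h1⟩
    have h3 : Disjoint X₂ (sSup ((D \ {X₁}) \ {X₂})) :=
      (hmd X₁ hX₁).2.1 ⟨hX₂.1, fun h => hX12 h.symm⟩
    have h4 : x₂ ∈ X₂ ⊓ sSup ((D \ {X₁}) \ {X₂}) := ⟨hx₂, h2⟩
    rw [h3.eq_bot, Submodule.mem_bot] at h4
    exact hx₂0 h4
  have hh0 : x₁ + x₂ ≠ 0 := by
    intro h
    have h1 : x₁ = x₂ := add_eq_zero'.1 h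
    have h2 : x₁ ∈ X₁ ⊓ X₂ := ⟨hx₁, h1 ▸ hx₂⟩
    rw [hdis.eq_bot, Submodule.mem_bot] at h2
    exact hx₁0 h2
  have ha0 : a ≠ 0 := by
    rintro rfl
    rw [map_zero] at ha
    exact hh0 ha.symm
  have hHH' := hHH V A X₁ X₂ x₁ x₂ _ a hA (hN'G X₁ hX₁) (hN'G X₂ hX₂) hX12 hx₁ hx₂ hx₁0 hζA ha hne
  rw [hee X₁ hX₁, hee X₂ hX₂] at hHH'
  obtain ⟨he', hn'⟩ := num hsum hn (hBL c hc e (fun X hX => hall X hX.1)) hHH'
    (hBL a ha0 e (fun X hX => hall X hX.1)) he2 ht2
  -- the case of dimension six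
  obtain ⟨O1a, O1b, O1c, _, _, _⟩ := hOM' X₁ (hDblk X₁ hX₁.1)
  obtain ⟨O2a, O2b, O2c, _, _, _⟩ := hOM' X₂ (hDblk X₂ hX₂.1)
  obtain ⟨a1, ha1⟩ : ∃ a, om A X₁ a = x₁ := mem_sp.1 (by rw [O1c]; exact hx₁)
  obtain ⟨a2, ha2⟩ : ∃ a, om A X₂ a = x₂ := mem_sp.1 (by rw [O2c]; exact hx₂)
  obtain ⟨v₀, hv1, hv2⟩ := exists_glue hdis a1 a2
  have hval : ∀ (X : DSub V) (b : V), om A X ∈ A → sp (om A X) = X →
      (∀ f ∈ X, f v₀ = f b) → om A X v₀ = om A X b := by
    intro X b h1 h2 h3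
    have h4 : om A X (v₀ + b) = 0 := by
      rw [(halt _ h1).ker_iff]
      intro f hf
      rw [h2] at hf
      rw [map_add, h3 f hf, zadd]
    rw [map_add] at h4
    exact add_eq_zero'.1 h4
  have hv1' : om A X₁ v₀ = x₁ := (hval X₁ a1 O1a O1c hv1).trans ha1
  have hv2' : om A X₂ v₀ = x₂ := (hval X₂ a2 O2a O2c hv2).trans ha2
  refine hSIX V A (om A X₁ + om A X₂) (sm A (D \ {X₂})) v₀ a (x₁ + x₂) hA hn'
    (A.add_mem O1a O2a) hζA ?_ ?_ ha ?_ hh0 ?_
  · rw [sp_add (halt _ O1a) (halt _ O2a) (by rw [O1c, O2c]; exact hdis), O1c, O2c]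
    have h1 := Submodule.finrank_sup_add_finrank_inf_eq X₁ X₂
    rw [hdis.eq_bot, finrank_bot, hee X₁ hX₁, hee X₂ hX₂] at h1
    omega
  · rw [LinearMap.add_apply, hv1', hv2']
  · intro h1
    rw [LinearMap.add_apply] at h1
    have h2 : om A X₁ a + x₁ = om A X₂ a + x₂ := by
      refine Pool.Agent.W622.ETC.add_eq_zero'.1 ?_
      have h3 : om A X₁ a + x₁ + (om A X₂ a + x₂) =
          (om A X₁ a + om A X₂ a) + (x₁ + x₂) := by abel
      rw [h3, h1, vadd]
    have h4 : om A X₁ a + x₁ ∈ X₁ ⊓ X₂ := by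
      refine ⟨X₁.add_mem ?_ hx₁, ?_⟩
      · have : om A X₁ a ∈ sp (om A X₁) := ⟨a, rfl⟩
        rwa [O1c] at this
      · rw [h2]
        refine X₂.add_mem ?_ hx₂
        have : om A X₂ a ∈ sp (om A X₂) := ⟨a, rfl⟩
        rwa [O2c] at this
    rw [hdis.eq_bot, Submodule.mem_bot] at h4
    exact hne (add_eq_zero'.1 h4)
  · intro X hX hX2 hhX
    have hXg : Good A X := by
      by_contra hg
      have := hbad X ⟨hX, hg⟩
      omega
    have hXX1 : X ≠ X₁ := by
      rintro rfl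
      have h1 : x₂ ∈ X := by
        have h2 : x₁ + (x₁ + x₂) ∈ X := X.add_mem hx₁ hhX
        rwa [add_cancel_left'] at h2
      have h2 : x₂ ∈ X ⊓ X₂ := ⟨h1, hx₂⟩
      rw [hdis.eq_bot, Submodule.mem_bot] at h2
      exact hx₂0 h2
    have hXX2 : X ≠ X₂ := by
      rintro rfl
      have h1 : x₁ ∈ X := by
        have h2 : x₁ + x₂ + x₂ ∈ X := X.add_mem hhX hx₂
        rwa [add_cancel'] at h2
      have h2 : x₁ ∈ X₁ ⊓ X := ⟨hx₁, h1⟩
      rw [hdis.eq_bot, Submodule.mem_bot] at h2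
      exact hx₁0 h2
    have hTdep : ¬ sSupIndep ({X, X₁, X₂} : Set (DSub V)) := by
      intro hind
      have h1 := hind (show X ∈ ({X, X₁, X₂} : Set (DSub V)) by simp)
      have h2 : x₁ + x₂ ∈ sSup (({X, X₁, X₂} : Set (DSub V)) \ {X}) := by
        refine Submodule.add_mem _ ?_ ?_
        · exact le_sSup (show X₁ ∈ ({X, X₁, X₂} : Set (DSub V)) \ {X} from
            ⟨by simp, fun h => hXX1 h.symm⟩) hx₁
        · exact le_sSup (show X₂ ∈ ({X, X₁, X₂} : Set (DSub V)) \ {X} from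
            ⟨by simp, fun h => hXX2 h.symm⟩) hx₂
      have h3 : x₁ + x₂ ∈ X ⊓ sSup (({X, X₁, X₂} : Set (DSub V)) \ {X}) := ⟨hhX, h2⟩
      rw [h1.eq_bot, Submodule.mem_bot] at h3
      exact hh0 h3
    obtain ⟨E, hEsub, hEdep, hEmin⟩ := min_dep _ hTdep
    have hEG : ∀ Z ∈ E, Z ∈ GB A := by
      intro Z hZ
      rcases hEsub hZ with h | h | h
      · rw [h]; exact ⟨hX, hXg⟩
      · rw [h]; exact hN'G X₁ hX₁
      · have h' : Z = X₂ := h
        rw [h']; exact hN'G X₂ hX₂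
    have hEne : E.Nonempty := by
      by_contra h
      rw [Set.not_nonempty_iff_eq_empty] at h
      apply hEdep
      rw [h]
      exact sSupIndep_empty
    obtain ⟨Z, hZ⟩ := hEne
    have h1 := (md hIDIM hMD hA (fun Z hZ => (hEG Z hZ).1) hEdep hEmin hZ (hEG Z hZ).2).2.2
    have h2 := sg_eq (S := E) (e := e) (fun Z hZ => hgood Z (hEG Z hZ))
    have h3 : E.ncard ≤ 3 := by
      refine (Set.ncard_le_ncard hEsub (Set.toFinite _)).trans ?_
      refine (Set.ncard_insert_le _ _).trans ?_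
      have h4 := Set.ncard_insert_le X₁ ({X₂} : Set (DSub V))
      rw [Set.ncard_singleton] at h4
      omega
    rw [hgood Z (hEG Z hZ)] at h1
    rw [he'] at h1 h2
    omega

end Pool.Agent.W366.ELT
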